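import Pool.Agent.H.MP_798553_pr.Toom

set_option autoImplicit false

namespace Pool.Agent.H.MP_798553_pr

open MeasureTheory ENNReal

def N : Finset S := Finset.univ.image fun p : Bool × Bool => vec p.1 p.2

lemma mem_N (a b : Bool) : vec a b ∈ N := Finset.mem_image.mpr ⟨(a, b), by simp, rfl⟩

def f (x : N → Fin 3) : Fin 3 :=
  if (x ⟨_, mem_N false false⟩ = 1 ∧ x ⟨_, mem_N false true⟩ = 1) ∨
    (x ⟨_, mem_N true false⟩ = 1 ∧ x ⟨_, mem_N true true⟩ = 1) then 2 else 0

def F (x : S → Fin 3) (i : S) : Fin 3 := f fun v => x (i + v.1)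

lemma F_eq (x : S → Fin 3) (i : S) : F x i =
    if (x (i + vec false false) = 1 ∧ x (i + vec false true) = 1) ∨
      (x (i + vec true false) = 1 ∧ x (i + vec true true) = 1) then 2 else 0 := rfl

lemma F_ne (x : S → Fin 3) (i : S) : F x i ≠ 1 := by
  rw [F_eq]; split_ifs <;> decide

lemma nilp (x : S → Fin 3) : F^[2] x = fun _ => 0 := by
  ext1 i
  change F (F x) i = 0
  rw [F_eq]
  simp [F_ne]

def g : Fin 3 → Fin 3 := ![0, 1, 1]

noncomputable def δ : ℝ≥0∞ := (1 / 18) ^ 5 / 2

lemma δδ : δ + δ = (1 / 18) ^ 5 := ENNReal.add_halves _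

lemma δlt : δ + δ < 1 := by
  rw [δδ]
  apply pow_lt_one' _ (by norm_num)
  rw [one_div, ENNReal.inv_lt_one]
  norm_num

lemma δ0 : δ ≠ 0 := by simp [δ]

noncomputable def θ (b : Fin 3) : PMF (Fin 3) :=
  PMF.ofFintype (fun c => if c = g b then 1 - (δ + δ) else δ) (by
    have := tsub_add_cancel_of_le δlt.le
    generalize g b = a
    rw [Fin.sum_univ_three]
    fin_cases a <;> simp <;> rw [← this] <;> simp only [this] <;> 
      first | (conv_rhs => rw [← this]); ring)

lemma θ_ne (a b : Fin 3) : θ a b ≠ 0 := by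
  simp only [θ, PMF.ofFintype_apply]
  split_ifs
  · exact (tsub_pos_of_lt δlt).ne'
  · exact δ0

lemma θ_bad (b : Fin 3) : (θ b).toMeasure {g b}ᶜ = (1 / 18) ^ 5 := by
  rw [PMF.toMeasure_apply_fintype, ← δδ, Fin.sum_univ_three]
  simp only [θ, Set.indicator, PMF.ofFintype_apply, Set.mem_compl_iff, Set.mem_singleton_iff]
  generalize g b = a
  fin_cases a <;> simp

noncomputable def κ (x : S → Fin 3) : Measure (S → Fin 3) :=
  Measure.infinitePi fun i => (θ (F x i)).toMeasure

lemma set_eq (x : S → Fin 3) (T : Finset S) :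
    {y : S → Fin 3 | ∀ i ∈ T, y i ≠ g (F x i)} = Set.pi T fun i => {g (F x i)}ᶜ := by
  ext y
  simp

lemma hm (x : S → Fin 3) (T : Finset S) :
    MeasurableSet {y : S → Fin 3 | ∀ i ∈ T, y i ≠ g (F x i)} := by
  rw [set_eq]
  exact MeasurableSet.pi T.countable_toSet fun _ _ => MeasurableSet.of_discrete

lemma hκ (x : S → Fin 3) (T : Finset S) :
    κ x {y : S → Fin 3 | ∀ i ∈ T, y i ≠ g (F x i)} ≤ ((1 / 18) ^ 5) ^ T.card := by
  rw [set_eq, κ, Measure.infinitePi_pi _ fun _ _ => MeasurableSet.of_discrete]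
  simp only [θ_bad]
  simp

lemma mE (c : Fin 3) : MeasurableSet {y : S → Fin 3 | ∀ i ∈ ({0} : Finset S), y i = c} := by
  simp only [Finset.mem_singleton, forall_eq]
  exact (measurable_pi_apply (0 : S) : Measurable fun y : S → Fin 3 => y 0)
    (measurableSet_singleton c)

lemma ones (c : Fin 3) (hc : c ≠ 1) (t : ℕ) :
    ((fun m : Measure (S → Fin 3) => m.bind κ)^[t] (Measure.dirac fun _ => 1))
      {y | ∀ i ∈ ({0} : Finset S), y i = c} ≤ 1 / 4 := by
  apply stable κ (fun x y i => y i ≠ g (F x i)) hm hκ (fun y i => y i ≠ 1) (fun i => i 0)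
    (fun _ _ => rfl) _ _ (by simp) (mE c)
  · intro y hy
    rw [hy 0 (by simp)]
    exact hc
  · intro x y i h
    by_cases hd : y i = g (F x i)
    · right
      rw [hd, F_eq] at h
      split_ifs at h with h'
      · exact absurd rfl h
      · push Not at h'
        constructor
        · by_cases a : x (i + vec false false) = 1
          · exact ⟨false, true, rfl, h'.1 a⟩
          · exact ⟨false, false, rfl, a⟩
        · by_cases a : x (i + vec true false) = 1
          · exact ⟨true, true, rfl, h'.2 a⟩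
          · exact ⟨true, false, rfl, a⟩
    · exact Or.inl hd

lemma zeros (t : ℕ) :
    ((fun m : Measure (S → Fin 3) => m.bind κ)^[t] (Measure.dirac fun _ => 0))
      {y | ∀ i ∈ ({0} : Finset S), y i = 1} ≤ 1 / 4 := by
  apply stable κ (fun x y i => y i ≠ g (F x i)) hm hκ (fun y i => y i = 1) (fun i => i 1)
    (fun _ _ => rfl) _ _ (by simp) (mE 1)
  · intro y hy
    exact hy 0 (by simp)
  · intro x y i h
    by_cases hd : y i = g (F x i)
    · right
      rw [hd, F_eq] at h
      split_ifs at h with h'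
      · rcases h' with h' | h'
        · exact ⟨⟨false, false, rfl, h'.1⟩, false, true, rfl, h'.2⟩
        · exact ⟨⟨true, false, rfl, h'.1⟩, true, true, rfl, h'.2⟩
      · exact absurd h (by decide)
    · exact Or.inl hd

lemma final (ν : Measure (S → Fin 3)) [IsProbabilityMeasure ν]
    (h : ∀ c : Fin 3, ν {y | ∀ i ∈ ({0} : Finset S), y i = c} ≤ 1 / 4) : False := by
  have h1 : (Set.univ : Set (S → Fin 3)) ⊆ ⋃ c : Fin 3, {y | ∀ i ∈ ({0} : Finset S), y i = c} := by
    intro y _
    simp
  have h2 := (measure_mono (μ := ν) h1).trans (measure_iUnion_fintype_le _ _)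
  rw [measure_univ] at h2
  have h3 := h2.trans (Finset.sum_le_sum fun c _ => h c)
  simp only [Finset.sum_const, Finset.card_univ, Fintype.card_fin, nsmul_eq_mul] at h3
  have := ENNReal.toReal_mono (by finiteness) h3
  norm_num at this

end Pool.Agent.H.MP_798553_pr
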