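import Mathlib

set_option autoImplicit false

namespace Pool.Agent.H.MP_798553_pr

open MeasureTheory ENNReal

abbrev S := Fin 2 → ℤ
abbrev Pt := ℤ × S
abbrev Step := Bool × Bool × Bool

def vec (a b : Bool) : S := ![if a then 1 else 0, if b then 1 else 0]

def disp (s : Step) : Pt := if s.1 then (1, vec s.2.1 s.2.2) else -(1, vec s.2.1 s.2.2)

def move (p : Pt) (u : List Step) : Pt := p + (u.map disp).sum

def Rel (Φ : Pt → ℤ) (c : ℤ) (p q : Pt) : Prop :=
  ∃ u : List Step, move p u = q ∧ Φ q - Φ p = c - u.length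

lemma Rel.refl (Φ : Pt → ℤ) (p : Pt) : Rel Φ 0 p p := ⟨[], by simp [move], by simp⟩

lemma Rel.trans {Φ : Pt → ℤ} {c d : ℤ} {p q r : Pt} (h : Rel Φ c p q) (h' : Rel Φ d q r) :
    Rel Φ (c + d) p r := by
  obtain ⟨u, rfl, a⟩ := h
  obtain ⟨v, rfl, b⟩ := h'
  refine ⟨u ++ v, by simp [move, add_assoc], ?_⟩
  simp only [List.length_append, Nat.cast_add]
  linarith

inductive Cyc (Φ : Pt → ℤ) (e : Pt) : Pt → List Pt → Prop
  | last (p q : Pt) : Rel Φ 0 p q → Rel Φ 0 q e → Cyc Φ e p [q]
  | cons (p q r : Pt) (l : List Pt) : Rel Φ 0 p q → Rel Φ 4 q r → Cyc Φ e r l → Cyc Φ e p (q :: l)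

variable {Φ : Pt → ℤ}

lemma Cyc.pre {e p p' : Pt} {l : List Pt} (h : Cyc Φ e p l) (h' : Rel Φ 0 p' p) : Cyc Φ e p' l := by
  cases h with
  | last _ q a b => exact .last _ _ (by simpa using h'.trans a) b
  | cons _ q r l a b c => exact .cons _ _ _ _ (by simpa using h'.trans a) b c

lemma Cyc.post {e e' p : Pt} {l : List Pt} (h : Cyc Φ e p l) (h' : Rel Φ 0 e e') :
    Cyc Φ e' p l := by
  induction h with
  | last p q a b => exact .last _ _ a (by simpa using b.trans h')
  | cons p q r l a b _ ih => exact .cons _ _ _ _ a b ih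

lemma Cyc.append {e e' p p' : Pt} {l l' : List Pt} (h : Cyc Φ e p l) (h' : Rel Φ 4 e p')
    (h'' : Cyc Φ e' p' l') : Cyc Φ e' p (l ++ l') := by
  induction h with
  | last p q a b => exact .cons _ _ _ _ a (by simpa using b.trans h') h''
  | cons p q r l a b _ ih => exact .cons _ _ _ _ a b ih

lemma Cyc.suffix {e q : Pt} {c : List Pt} : ∀ (b : List Pt) {p : Pt}, Cyc Φ e p (b ++ q :: c) →
    Cyc Φ e q (q :: c) := by
  intro b
  induction b with
  | nil =>
    intro p h
    cases h with
    | last _ _ a b => exact .last _ _ (Rel.refl _ _) b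
    | cons _ _ r _ a b c => exact .cons _ _ _ _ (Rel.refl _ _) b c
  | cons x b ih =>
    intro p h
    rw [List.cons_append] at h
    generalize hl : b ++ q :: c = l at h
    cases h with
    | last _ _ a b => simp at hl
    | cons _ _ r _ a b c => exact ih (hl ▸ c)

lemma Cyc.dedup {e p : Pt} {l : List Pt} (h : Cyc Φ e p l) :
    ∃ l', Cyc Φ e p l' ∧ l'.Nodup ∧ l' ⊆ l := by
  induction h with
  | last p q a b => exact ⟨[q], .last _ _ a b, by simp, by simp⟩
  | cons p q r l a b _ ih =>
    obtain ⟨l', h1, h2, h3⟩ := ih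
    by_cases hq : q ∈ l'
    · obtain ⟨s, t, rfl⟩ := List.append_of_mem hq
      refine ⟨q :: t, (Cyc.suffix s h1).pre a, h2.of_append_right, ?_⟩
      intro x hx
      exact List.mem_cons_of_mem _ (h3 (List.mem_append_right _ hx))
    · exact ⟨q :: l', .cons _ _ _ _ a b h1, List.nodup_cons.mpr ⟨hq, h2⟩,
        List.cons_subset_cons _ h3⟩

def marks : Pt → List (Option Step) → List Pt
  | _, [] => []
  | p, none :: w => p :: marks p w
  | p, some s :: w => marks (p + disp s) w

lemma marks_append (p : Pt) (u : List Step) (w : List (Option Step)) :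
    marks p (u.map some ++ w) = marks (move p u) w := by
  induction u generalizing p with
  | nil => simp [move]
  | cons s u ih => simp [marks, ih, move, add_assoc]

lemma Cyc.word {e p : Pt} {l : List Pt} (h : Cyc Φ e p l) :
    ∃ w : List (Option Step), marks p w = l ∧ (w.length : ℤ) + 4 = Φ p - Φ e + 5 * l.length := by
  induction h with
  | last p q a b =>
    obtain ⟨u, rfl, a⟩ := a
    obtain ⟨v, hv, b⟩ := b
    refine ⟨u.map some ++ none :: (v.map some ++ []), ?_, ?_⟩
    · rw [marks_append, marks, marks_append, marks]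
    · simp
      linarith
  | cons p q r l a b _ ih =>
    obtain ⟨u, rfl, a⟩ := a
    obtain ⟨v, rfl, b⟩ := b
    obtain ⟨w, rfl, c⟩ := ih
    refine ⟨u.map some ++ none :: (v.map some ++ w), ?_, ?_⟩
    · rw [marks_append, marks, marks_append]
    · simp
      linarith

lemma toom (Z Df : ℕ → S → Prop) (t : ℕ) (L : S → ℤ) (hL : ∀ i j, L (i + j) = L i + L j)
    (h0 : ∀ i, ¬ Z t i)
    (hs : ∀ n < t, ∀ i, Z n i → Df n i ∨
      ((∃ a b, L (vec a b) = 0 ∧ Z (n + 1) (i + vec a b)) ∧
        ∃ a b, L (vec a b) = 1 ∧ Z (n + 1) (i + vec a b)))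
    (i : S) (hi : Z 0 i) :
    ∃ w : List (Option Step), w.length + 4 = 5 * (marks (0, i) w).toFinset.card ∧
      ∀ q ∈ (marks (0, i) w).toFinset, ∃ n < t, q.1 = n ∧ Df n q.2 := by
  have key : ∀ k n : ℕ, n + k = t → ∀ i, Z n i → ∃ l,
      Cyc (fun p => 2 * L p.2 - p.1) (n, i) (n, i) l ∧ ∀ q ∈ l, ∃ n < t, q.1 = n ∧ Df n q.2 := by
    intro k
    induction k with
    | zero =>
      intro n hn i hi
      exact absurd hi (by simpa [← hn] using h0 i)
    | succ k ih =>
      intro n hn i hi
      rcases hs n (by omega) i hi with h | ⟨⟨a, b, h1, h2⟩, c, d, h3, h4⟩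
      · exact ⟨[(n, i)], .last _ _ (Rel.refl _ _) (Rel.refl _ _), by
          simp only [List.mem_singleton, forall_eq]
          exact ⟨n, by omega, rfl, h⟩⟩
      · obtain ⟨l1, c1, d1⟩ := ih (n + 1) (by omega) _ h2
        obtain ⟨l2, c2, d2⟩ := ih (n + 1) (by omega) _ h4
        refine ⟨l1 ++ l2, ((c1.append ?_ c2).pre ?_).post ?_, ?_⟩
        · refine ⟨[(false, a, b), (true, c, d)], by simp [move, disp], ?_⟩
          simp [hL, h1, h3]
          ring
        · refine ⟨[(true, a, b)], by simp [move, disp], ?_⟩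
          simp [hL, h1]
        · refine ⟨[(false, c, d)], by simp [move, disp], ?_⟩
          simp [hL, h3]
          ring
        · intro q hq
          rcases List.mem_append.mp hq with h | h
          · exact d1 q h
          · exact d2 q h
  obtain ⟨l, c, d⟩ := key t 0 (by simp) i hi
  obtain ⟨l', c', nd, sub⟩ := c.dedup
  obtain ⟨w, hw, hl⟩ := c'.word
  simp only [Nat.cast_zero] at hw
  refine ⟨w, ?_, ?_⟩
  · rw [hw, List.toFinset_card_of_nodup nd]
    omega
  · intro q hq
    rw [hw, List.mem_toFinset] at hq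
    exact d q (sub hq)

lemma sum_words : ∑' w : List (Option Step), ((1 : ℝ≥0∞) / 18) ^ (w.length + 4) ≤ 1 / 4 := by
  rw [← (List.equivSigmaTuple (α := Option Step)).symm.tsum_eq, ENNReal.tsum_sigma']
  have h : ∀ n : ℕ, ∑' f : Fin n → Option Step, ((1 : ℝ≥0∞) / 18) ^
      (((List.equivSigmaTuple (α := Option Step)).symm ⟨n, f⟩).length + 4) =
      (1 / 18) ^ 4 * (2⁻¹) ^ n := by
    intro n
    have e : (9 : ℝ≥0∞) * (1 / 18) = 2⁻¹ := by
      rw [show (18 : ℝ≥0∞) = 9 * 2 by norm_num, one_div, ENNReal.mul_inv (by simp) (by simp),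
        ← mul_assoc, ENNReal.mul_inv_cancel (by simp) (by simp), one_mul]
    simp only [List.equivSigmaTuple_symm_apply, List.length_ofFn, tsum_fintype, Finset.sum_const,
      Finset.card_univ, Fintype.card_fun, Fintype.card_fin, nsmul_eq_mul]
    rw [← e, mul_pow, pow_add]
    simp
    ring
  simp only [h]
  rw [ENNReal.tsum_mul_left, ENNReal.tsum_geometric_two]
  have : ((1 : ℝ≥0∞) / 18) ^ 4 * 2 = ENNReal.ofReal ((1 / 18) ^ 4 * 2) := by
    rw [ENNReal.ofReal_mul (by positivity), ENNReal.ofReal_pow (by positivity),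
      ENNReal.ofReal_div_of_pos (by positivity)]
    simp
  rw [this, show (1 : ℝ≥0∞) / 4 = ENNReal.ofReal (1 / 4) by
    rw [ENNReal.ofReal_div_of_pos (by positivity)]; simp]
  exact ENNReal.ofReal_le_ofReal (by norm_num)

variable {X : Type} [MeasurableSpace X]

noncomputable def U (κ : X → Measure X) (E : Set X) : ℕ → X → ℝ≥0∞
  | 0 => E.indicator 1
  | t + 1 => fun x => ∫⁻ y, U κ E t y ∂κ x

lemma iter_le (κ : X → Measure X) {E : Set X} (hE : MeasurableSet E) (t : ℕ) (μ : Measure X) :
    ((fun m : Measure X => m.bind κ)^[t] μ) E ≤ ∫⁻ x, U κ E t x ∂μ := by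
  induction t generalizing μ with
  | zero => simp [U, lintegral_indicator_one hE]
  | succ t ih =>
    rw [Function.iterate_succ_apply]
    exact (ih _).trans (Measure.lintegral_bind_le _ _ _)

lemma U_le (κ : X → Measure X) (E : Set X) (Df : X → X → S → Prop) (ε : ℝ≥0∞)
    (hm : ∀ x (T : Finset S), MeasurableSet {y | ∀ i ∈ T, Df x y i})
    (hκ : ∀ x (T : Finset S), κ x {y | ∀ i ∈ T, Df x y i} ≤ ε ^ T.card)
    {ι : Type} [Countable ι] (t : ℕ) : ∀ (x : X) (W : Set ι) (D : ι → Finset Pt),
    (∀ p : ℕ → X, p t = x → p 0 ∈ E →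
      ∃ w ∈ W, ∀ q ∈ D w, ∃ n < t, q.1 = n ∧ Df (p (n + 1)) (p n) q.2) →
    U κ E t x ≤ ∑' w, W.indicator (fun w => ε ^ (D w).card) w := by
  classical
  induction t with
  | zero =>
    intro x W D h
    by_cases hx : x ∈ E
    · obtain ⟨w, hw, h'⟩ := h (fun _ => x) rfl hx
      have : D w = ∅ := by
        rw [Finset.eq_empty_iff_forall_notMem]
        intro q hq
        simpa using h' q hq
      refine le_trans ?_ (ENNReal.le_tsum w)
      simp [U, hx, hw, this]
    · simp [U, hx]
  | succ t ih =>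
    intro x W D h
    let T : ι → Finset S := fun w => ((D w).filter fun q => q.1 = (t : ℤ)).image Prod.snd
    let D' : ι → Finset Pt := fun w => (D w).filter fun q => ¬ q.1 = (t : ℤ)
    have hc : ∀ w, (D w).card = (D' w).card + (T w).card := by
      intro w
      rw [Finset.card_image_of_injOn, add_comm, Finset.card_filter_add_card_filter_not]
      intro a ha b hb hab
      simp only [Finset.coe_filter, Set.mem_ofPred_eq] at ha hb
      exact Prod.ext (ha.2.trans hb.2.symm) hab
    have h1 : ∀ y, U κ E t y ≤ ∑' w, {y | ∀ i ∈ T w, Df x y i}.indicator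
        (fun _ => W.indicator (fun w => ε ^ (D' w).card) w) y := by
      intro y
      refine (ih y {w ∈ W | ∀ i ∈ T w, Df x y i} D' ?_).trans (le_of_eq (tsum_congr fun w => ?_))
      · intro p hp hp0
        obtain ⟨w, hw, h'⟩ := h (Function.update p (t + 1) x) (by simp) (by simpa using hp0)
        refine ⟨w, ⟨hw, ?_⟩, ?_⟩
        · intro i hi
          obtain ⟨q, hq, rfl⟩ := Finset.mem_image.mp hi
          rw [Finset.mem_filter] at hq
          obtain ⟨n, -, h2, h3⟩ := h' q hq.1
          have : n = t := by have := hq.2; omega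
          subst this
          simpa [hp] using h3
        · intro q hq
          rw [Finset.mem_filter] at hq
          obtain ⟨n, h1, h2, h3⟩ := h' q hq.1
          have : n < t := by have := hq.2; omega
          refine ⟨n, this, h2, ?_⟩
          rwa [Function.update_of_ne (by omega), Function.update_of_ne (by omega)] at h3
      · by_cases a : w ∈ W <;> by_cases b : ∀ i ∈ T w, Df x y i <;>
          simp [Set.indicator, a, b]
    refine (lintegral_mono h1).trans ?_
    rw [lintegral_tsum fun w => (measurable_const.indicator (hm x _)).aemeasurable]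
    apply ENNReal.tsum_le_tsum
    intro w
    rw [lintegral_indicator_const (hm x _)]
    by_cases a : w ∈ W
    · rw [Set.indicator_of_mem a, Set.indicator_of_mem a, hc, pow_add]
      gcongr
      exact hκ x _
    · simp [a]

theorem stable [MeasurableSingletonClass X] (κ : X → Measure X) (Df : X → X → S → Prop)
    (hm : ∀ x (T : Finset S), MeasurableSet {y | ∀ i ∈ T, Df x y i})
    (hκ : ∀ x (T : Finset S), κ x {y | ∀ i ∈ T, Df x y i} ≤ ((1 / 18) ^ 5) ^ T.card)
    (Z : X → S → Prop) (L : S → ℤ) (hL : ∀ i j, L (i + j) = L i + L j)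
    (hs : ∀ x y i, Z y i → Df x y i ∨
      ((∃ a b, L (vec a b) = 0 ∧ Z x (i + vec a b)) ∧ ∃ a b, L (vec a b) = 1 ∧ Z x (i + vec a b)))
    (x : X) (hx : ∀ i, ¬ Z x i) {E : Set X} (hE : MeasurableSet E) (hE' : ∀ y ∈ E, Z y 0) (t : ℕ) :
    ((fun m : Measure X => m.bind κ)^[t] (Measure.dirac x)) E ≤ 1 / 4 := by
  refine (iter_le κ hE t _).trans ?_
  rw [lintegral_dirac]
  refine (U_le κ E Df _ hm hκ t x
    {w : List (Option Step) | w.length + 4 = 5 * (marks (0, 0) w).toFinset.card}
    (fun w => (marks (0, 0) w).toFinset) ?_).trans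
    (le_trans (ENNReal.tsum_le_tsum fun w => ?_) sum_words)
  · intro p hp hp0
    exact toom (fun n i => Z (p n) i) (fun n i => Df (p (n + 1)) (p n) i) t L hL
      (by simpa [hp] using hx) (fun n _ i h => hs _ _ i h) 0 (hE' _ hp0)
  · apply Set.indicator_apply_le' _ (fun _ => zero_le)
    intro hw
    rw [← pow_mul, ← hw]

end Pool.Agent.H.MP_798553_pr
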